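import Pool.Agent.W809.ZQ.Stm

/-!
# ZQ-DET: block determinants
-/

set_option autoImplicit false

open Set Filter Topology

namespace Pool.Agent.W103.ZQ

open Pool.Agent.W809.ZQ

variable {n : ℕ}

/-- the matrix after the change of basis -/
def cm (P c : U n) : Mt n := ((P * c * P⁻¹ : U n) : Mt n)

theorem cm_mul (P a b : U n) : cm P (a * b) = cm P a * cm P b := by
  unfold cm
  rw [← Submonoid.coe_mul]
  congr 1
  group

theorem cm_one (P : U n) : cm P 1 = 1 := by
  unfold cm
  rw [mul_one, mul_inv_cancel]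
  rfl

theorem cm_pow (P a : U n) (k : ℕ) : cm P (a ^ k) = cm P a ^ k := by
  induction k with
  | zero => rw [pow_zero, pow_zero, cm_one]
  | succ k ih => rw [pow_succ, pow_succ, cm_mul, ih]

theorem cm_eq_one {P a : U n} (h : cm P a = 1) : a = 1 := by
  have h1 : (P * a * P⁻¹ : U n) = 1 := Subtype.ext h
  have h2 : a = P⁻¹ * (P * a * P⁻¹) * P := by group
  rw [h2, h1]
  group

theorem cm_cont (P : U n) : Continuous (fun c : U n => cm P c) := by
  unfold cm
  exact continuous_subtype_val.comp (by fun_prop)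

/-- the center of `C` -/
def Z0 (C : Subgroup (U n)) : Subgroup (U n) := C ⊓ Subgroup.centralizer (C : Set (U n))

theorem mem_Z0 {C : Subgroup (U n)} {z : U n} : z ∈ Z0 C ↔ z ∈ C ∧ ∀ a ∈ C, a * z = z * a := by
  unfold Z0
  rw [Subgroup.mem_inf, Subgroup.mem_centralizer_iff]
  rfl

open Classical in
/-- idempotent of a class of characters -/
noncomputable def EE (P : U n) (C : Subgroup (U n)) (i : Fin n) : Mt n :=
  Matrix.diagonal (fun j => if (∀ z ∈ Z0 C, dg P z j = dg P z i) then 1 else 0)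

theorem EE_idem (P : U n) (C : Subgroup (U n)) (i : Fin n) : EE P C i * EE P C i = EE P C i := by
  unfold EE
  rw [Matrix.diagonal_mul_diagonal]
  congr 1
  funext j
  split_ifs <;> simp

theorem EE_comm {P : U n} {C : Subgroup (U n)} (hP : Dia P (Z0 C)) (i : Fin n) {c : U n}
    (hc : c ∈ C) : cm P c * EE P C i = EE P C i * cm P c := by
  ext j k
  unfold EE
  rw [Matrix.mul_diagonal, Matrix.diagonal_mul]
  have key : ∀ z ∈ Z0 C, dg P z j ≠ dg P z k → cm P c j k = 0 := by
    intro z hz hne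
    have hzc := (mem_Z0.1 hz).2 c hc
    have h1 : cm P c * cm P z = cm P z * cm P c := by rw [← cm_mul, ← cm_mul, hzc]
    have h2 : cm P z = Matrix.diagonal (fun l => dg P z l) := by
      ext a b
      by_cases hab : a = b
      · rw [hab, Matrix.diagonal_apply_eq]
        rfl
      · rw [Matrix.diagonal_apply_ne _ hab]
        exact hP z hz a b hab
    rw [h2] at h1
    have h3 := congrFun (congrFun h1 j) k
    rw [Matrix.mul_diagonal, Matrix.diagonal_mul] at h3
    have h4 : cm P c j k * (dg P z k - dg P z j) = 0 := by rw [mul_sub, h3]; ring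
    rcases mul_eq_zero.1 h4 with h5 | h5
    · exact h5
    · exact absurd (sub_eq_zero.1 h5).symm hne
  by_cases hj : ∀ z ∈ Z0 C, dg P z j = dg P z i
  · by_cases hk : ∀ z ∈ Z0 C, dg P z k = dg P z i
    · rw [if_pos hj, if_pos hk]
      ring
    · rw [if_pos hj, if_neg hk]
      push Not at hk
      obtain ⟨z, hz, hzk⟩ := hk
      rw [key z hz (by rw [hj z hz]; exact hzk.symm)]
      ring
  · by_cases hk : ∀ z ∈ Z0 C, dg P z k = dg P z i
    · rw [if_neg hj, if_pos hk]
      push Not at hj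
      obtain ⟨z, hz, hzj⟩ := hj
      rw [key z hz (by rw [hk z hz]; exact hzj)]
      ring
    · rw [if_neg hj, if_neg hk]
      ring

/-- the block determinant -/
noncomputable def dl (P : U n) (C : Subgroup (U n)) (i : Fin n) (c : U n) : ℂ :=
  (cm P c * EE P C i + (1 - EE P C i)).det

theorem dl_one (P : U n) (C : Subgroup (U n)) (i : Fin n) : dl P C i 1 = 1 := by
  unfold dl
  rw [cm_one, one_mul, add_sub_cancel, Matrix.det_one]

theorem dl_mul {P : U n} {C : Subgroup (U n)} (hP : Dia P (Z0 C)) (i : Fin n) {c d : U n}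
    (_ : c ∈ C) (hd : d ∈ C) : dl P C i (c * d) = dl P C i c * dl P C i d := by
  unfold dl
  rw [← Matrix.det_mul, cm_mul]
  congr 1
  have h1 := EE_idem P C i
  have h2 := EE_comm hP i hd
  set E := EE P C i
  have h3 : cm P c * E * (cm P d * E) = cm P c * cm P d * E := by
    rw [mul_assoc, ← mul_assoc E, ← h2, mul_assoc (cm P d), h1, ← mul_assoc]
  have h4 : E * (1 - E) = 0 := by rw [mul_sub, mul_one, h1, sub_self]
  have h5 : (1 - E) * (cm P d * E) = 0 := by
    rw [h2, ← mul_assoc, sub_mul, one_mul, h1, sub_self, zero_mul]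
  have h6 : (1 - E) * (1 - E) = 1 - E := by
    rw [sub_mul, one_mul, h4, sub_zero]
  rw [add_mul, mul_add, mul_add, h3, h5, h6, mul_assoc (cm P c) E (1 - E), h4, mul_zero,
    add_zero, zero_add]

theorem dl_cont (P : U n) (C : Subgroup (U n)) (i : Fin n) : Continuous (dl P C i) := by
  unfold dl
  exact (((cm_cont P).matrix_mul continuous_const).add continuous_const).matrix_det

/-- the group of all elements with block determinants one -/
noncomputable def DD {P : U n} {C : Subgroup (U n)} (hP : Dia P (Z0 C)) : Subgroup (U n) where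
  carrier := {c | c ∈ C ∧ ∀ i, dl P C i c = 1}
  mul_mem' {a b} ha hb := ⟨C.mul_mem ha.1 hb.1, fun i => by
    rw [dl_mul hP i ha.1 hb.1, ha.2, hb.2, one_mul]⟩
  one_mem' := ⟨C.one_mem, fun i => dl_one P C i⟩
  inv_mem' {a} ha := ⟨C.inv_mem ha.1, fun i => by
    have h := dl_mul hP i ha.1 (C.inv_mem ha.1)
    rw [mul_inv_cancel, dl_one, ha.2, one_mul] at h
    exact h.symm⟩

theorem mem_DD {P : U n} {C : Subgroup (U n)} (hP : Dia P (Z0 C)) {c : U n} :
    c ∈ DD hP ↔ c ∈ C ∧ ∀ i, dl P C i c = 1 := Iff.rfl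

theorem dl_Z0 {P : U n} {C : Subgroup (U n)} (hP : Dia P (Z0 C)) (i : Fin n) {z : U n}
    (hz : z ∈ Z0 C) : ∃ m : ℕ, 1 ≤ m ∧ dl P C i z = dg P z i ^ m := by
  classical
  refine ⟨(Finset.univ.filter (fun j => ∀ z ∈ Z0 C, dg P z j = dg P z i)).card, ?_, ?_⟩
  · rw [Nat.one_le_iff_ne_zero, Finset.card_ne_zero]
    exact ⟨i, Finset.mem_filter.2 ⟨Finset.mem_univ _, fun _ _ => rfl⟩⟩
  · have h2 : cm P z = Matrix.diagonal (fun l => dg P z l) := by
      ext a b
      by_cases hab : a = b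
      · rw [hab, Matrix.diagonal_apply_eq]
        rfl
      · rw [Matrix.diagonal_apply_ne _ hab]
        exact hP z hz a b hab
    unfold dl EE
    rw [h2, Matrix.diagonal_mul_diagonal, ← Matrix.diagonal_one, Matrix.diagonal_sub,
      Matrix.diagonal_add, Matrix.det_diagonal]
    have h3 : ∀ j : Fin n, dg P z j * (if (∀ z ∈ Z0 C, dg P z j = dg P z i) then (1 : ℂ) else 0) +
        (1 - (if (∀ z ∈ Z0 C, dg P z j = dg P z i) then (1 : ℂ) else 0)) =
        if (∀ z ∈ Z0 C, dg P z j = dg P z i) then dg P z i else 1 := by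
      intro j
      by_cases hj : ∀ z ∈ Z0 C, dg P z j = dg P z i
      · rw [if_pos hj, if_pos hj, hj z hz]
        ring
      · rw [if_neg hj, if_neg hj]
        ring
    rw [Finset.prod_congr rfl (fun j _ => h3 j), Finset.prod_ite, Finset.prod_const,
      Finset.prod_const_one, mul_one]

theorem det (hDIAG : S_DIAG) : S_DET := by
  intro n C hC
  obtain ⟨P, hP⟩ := hDIAG n (Z0 C) (by
    intro a ha b hb
    exact (mem_Z0.1 hb).2 a (mem_Z0.1 ha).1)
  refine ⟨DD hP, fun c hc => hc.1, ?_, ?_, ?_⟩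
  · intro x hx hxc
    refine (mem_DD hP).2 ⟨hx, fun i => ?_⟩
    have hcl : IsClosed {c : U n | dl P C i c = 1} :=
      isClosed_eq (dl_cont P C i) continuous_const
    have hsub : ((DD hP : Subgroup (U n)) : Set (U n)) ⊆ {c : U n | dl P C i c = 1} :=
      fun c hc => hc.2 i
    exact closure_minimal hsub hcl hxc
  · intro a ha b hb
    refine (mem_DD hP).2 ⟨C.mul_mem (C.mul_mem (C.mul_mem ha hb) (C.inv_mem ha)) (C.inv_mem hb),
      fun i => ?_⟩
    rw [dl_mul hP i (C.mul_mem (C.mul_mem ha hb) (C.inv_mem ha)) (C.inv_mem hb),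
      dl_mul hP i (C.mul_mem ha hb) (C.inv_mem ha), dl_mul hP i ha hb]
    have h1 := dl_mul hP i ha (C.inv_mem ha)
    have h2 := dl_mul hP i hb (C.inv_mem hb)
    rw [mul_inv_cancel, dl_one] at h1 h2
    calc dl P C i a * dl P C i b * dl P C i a⁻¹ * dl P C i b⁻¹ =
        (dl P C i a * dl P C i a⁻¹) * (dl P C i b * dl P C i b⁻¹) := by ring
      _ = 1 := by rw [← h1, ← h2, one_mul]
  · intro d hd
    obtain ⟨k, hk, hk2⟩ := hC d hd.1
    have hz : d ^ k ∈ Z0 C := mem_Z0.2 ⟨C.pow_mem hd.1 k, fun a ha => (hk2 a ha).symm⟩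
    have hzD : d ^ k ∈ DD hP := (DD hP).pow_mem hd k
    have h1 : ∀ i : Fin n, ∃ m : ℕ, 1 ≤ m ∧ dg P (d ^ k) i ^ m = 1 := by
      intro i
      obtain ⟨m, hm, hm2⟩ := dl_Z0 hP i hz
      exact ⟨m, hm, by rw [← hm2]; exact hzD.2 i⟩
    choose m hm hm2 using h1
    set M := ∏ i, m i with hM
    have hM1 : 1 ≤ M := Nat.one_le_iff_ne_zero.2
      (Finset.prod_ne_zero_iff.2 (fun i _ => Nat.one_le_iff_ne_zero.1 (hm i)))
    refine ⟨k * M, Nat.one_le_iff_ne_zero.2 (Nat.mul_ne_zero (by omega) (by omega)), ?_⟩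
    rw [pow_mul]
    apply cm_eq_one (P := P)
    have h2 : cm P (d ^ k) = Matrix.diagonal (fun l => dg P (d ^ k) l) := by
      ext a b
      by_cases hab : a = b
      · rw [hab, Matrix.diagonal_apply_eq]
        rfl
      · rw [Matrix.diagonal_apply_ne _ hab]
        exact hP _ hz a b hab
    rw [cm_pow, h2, Matrix.diagonal_pow, ← Matrix.diagonal_one]
    congr 1
    funext l
    show dg P (d ^ k) l ^ M = 1
    obtain ⟨q, hq⟩ := Finset.dvd_prod_of_mem m (Finset.mem_univ l)
    rw [hM, hq, pow_mul, hm2, one_pow]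

end Pool.Agent.W103.ZQ
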